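import Pool.Agent.H76R3.U1Final

set_option autoImplicit false

namespace Pool.Agent.Results.MP_b531f7_gt.EllOneNegative

/-- The case `p = 1` of the question, answered in the negative: for every constant `C` there is a
metric space `X`, the union of two subsets `A` and `B` each of which embeds isometrically into
`ℓ_1`, such that no map `f : X → ℓ_1` has distortion at most `C`. -/
theorem result (C : ℝ) : ∃ (X : Type) (_ : MetricSpace X) (A B : Set X),
    A ∪ B = Set.univ ∧
    (∃ f : A → lp (fun _ : ℕ => ℝ) 1, Isometry f) ∧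
    (∃ f : B → lp (fun _ : ℕ => ℝ) 1, Isometry f) ∧
    ¬ ∃ (f : X → lp (fun _ : ℕ => ℝ) 1) (s : ℝ), 0 < s ∧
      ∀ x y, s * dist x y ≤ dist (f x) (f y) ∧ dist (f x) (f y) ≤ s * C * dist x y :=
  Pool.Agent.H76R3.UN.main C

end Pool.Agent.Results.MP_b531f7_gt.EllOneNegative
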